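import Pool.Agent.LibTri77.Final

open Filter Topology Finset

namespace Pool.Agent.LibTri77

/-- `∑_{n ≥ 1} cos (2πnx) / n^3`, the real part of `Li_3 (exp (2πix))` -/
noncomputable def C3 (x : ℝ) : ℝ :=
  ∑' n : ℕ, Real.cos (2 * Real.pi * ((n : ℝ) + 1) * x) / ((n : ℝ) + 1) ^ 3

lemma U_three (x : ℝ) : U 3 x = -C3 x := by
  unfold U C3
  rw [← tsum_neg]
  apply tsum_congr
  intro n
  unfold tm
  have e : 2 * Real.pi * ((n : ℝ) + 1) * x - (((3 : ℕ) : ℝ) - 1) * Real.pi / 2 =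
      2 * Real.pi * ((n : ℝ) + 1) * x - Real.pi := by
    push_cast
    ring
  rw [e, Real.cos_sub_pi]
  ring

lemma C3_zero : C3 0 = ∑' n : ℕ, 1 / ((n : ℝ) + 1) ^ 3 := by
  unfold C3
  simp

lemma fib_sum (t : ℕ) : Nat.fib (2 * t + 4) =
    ∑ j ∈ range (t + 2), (t + 2 + j).choose (2 * j + 1) := by
  rw [show 2 * t + 4 = (2 * t + 3) + 1 by ring, Nat.fib_succ_eq_sum_choose,
    Finset.Nat.sum_antidiagonal_eq_sum_range_succ (fun a b => Nat.choose a b)]
  rw [show (2 * t + 3).succ = (t + 2) + (t + 2) by omega, sum_range_add]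
  have h1 : ∑ k ∈ range (t + 2), Nat.choose k (2 * t + 3 - k) = 0 := by
    apply sum_eq_zero
    intro k hk
    rw [mem_range] at hk
    apply Nat.choose_eq_zero_of_lt
    omega
  rw [h1, zero_add]
  apply sum_congr rfl
  intro j hj
  rw [mem_range] at hj
  rw [show 2 * t + 3 - (t + 2 + j) = t + 1 - j by omega]
  rw [← Nat.choose_symm (show t + 1 - j ≤ t + 2 + j by omega)]
  congr 1
  omega

lemma asc_choose (a m : ℕ) : (a + 1).ascFactorial (m + 1) =
    (a + 1) * (m.factorial * (a + 1 + m).choose m) := by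
  rw [Nat.ascFactorial_eq_factorial_mul_choose, Nat.factorial_succ]
  have h := Nat.choose_succ_right_eq (a + 1 + m) m
  rw [show a + (m + 1) = a + 1 + m by ring]
  have h2 : a + 1 + m - m = a + 1 := by omega
  rw [h2] at h
  calc (m + 1) * m.factorial * (a + 1 + m).choose (m + 1) =
      m.factorial * ((a + 1 + m).choose (m + 1) * (m + 1)) := by ring
    _ = _ := by rw [h]; ring

theorem fib_version (q D : ℕ) (hq : 6 ≤ q) (hD : 1 ≤ D)
    (h : ∀ j : ℕ, 1 ≤ j → j < q → ∃ z : ℤ, (D : ℝ) * (C3 ((j : ℝ) / q) / Real.pi ^ 3) = z) :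
    Real.pi * q / 8 * ((Nat.fib (2 * (q / 2) - 2) : ℝ) - 1) ≤ D := by
  have hpi := Real.pi_pos
  obtain ⟨t, ht⟩ := Nat.exists_eq_add_of_le' (show 3 ≤ q / 2 by omega)
  have hDpos : (0 : ℝ) < D := by exact_mod_cast hD
  have hq' : (0 : ℝ) < q := by exact_mod_cast (by omega : 0 < q)
  have h1 : ∀ j ∈ range (t + 1), Real.pi * (q : ℝ) ^ 2 * ((t + 2 + j).choose (2 * j + 1) : ℝ) ≤
      16 * D := by
    intro j hj
    rw [mem_range] at hj
    obtain ⟨a, ha⟩ := Nat.exists_eq_add_of_le' (show 1 ≤ t + 1 - j by omega)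
    have h2 := main 3 (a + 1) (2 * j + 1) q D (by norm_num) (by omega) ⟨j, rfl⟩ (by omega) hD
      (fun i hi1 hi2 => by
        obtain ⟨z, hz⟩ := h i (by omega) (by omega)
        refine ⟨-z, ?_⟩
        rw [U_three]
        push_cast
        rw [← hz]
        ring)
    rw [asc_choose, show a + 1 + (2 * j + 1) = t + 2 + j by omega] at h2
    push_cast at h2
    have hf : (0 : ℝ) < ((2 * j + 1).factorial : ℝ) := by positivity
    have ha1 : (1 : ℝ) ≤ (a : ℝ) + 1 := by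
      have : (0 : ℝ) ≤ a := Nat.cast_nonneg a
      linarith
    have h3 : Real.pi * (q : ℝ) ^ 2 * ((t + 2 + j).choose (2 * j + 1) : ℝ) *
        ((2 * j + 1).factorial : ℝ) ≤ 16 * D * ((2 * j + 1).factorial : ℝ) := by
      have h4 : (0 : ℝ) ≤ Real.pi * (q : ℝ) ^ 2 * (((2 * j + 1).factorial : ℝ) *
          ((t + 2 + j).choose (2 * j + 1) : ℝ)) := by positivity
      have h5 := mul_le_mul_of_nonneg_right ha1 h4
      norm_num at h2
      linarith
    exact le_of_mul_le_mul_right h3 hf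
  have h2 := sum_le_sum h1
  rw [← mul_sum, sum_const, card_range, nsmul_eq_mul] at h2
  have h3 : (∑ j ∈ range (t + 1), ((t + 2 + j).choose (2 * j + 1) : ℝ)) =
      (Nat.fib (2 * t + 4) : ℝ) - 1 := by
    rw [fib_sum]
    push_cast
    rw [sum_range_succ _ (t + 1), show t + 2 + (t + 1) = 2 * (t + 1) + 1 by ring, Nat.choose_self]
    push_cast
    ring
  rw [h3] at h2
  rw [ht, show 2 * (t + 3) - 2 = 2 * t + 4 by omega]
  have ht2 : ((t : ℝ) + 1) * 2 ≤ q := by
    exact_mod_cast (by omega : (t + 1) * 2 ≤ q)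
  have h4 : Real.pi * (q : ℝ) ^ 2 * ((Nat.fib (2 * t + 4) : ℝ) - 1) ≤ 8 * D * q := by
    refine h2.trans ?_
    push_cast
    nlinarith
  have h5 : Real.pi * (q : ℝ) / 8 * ((Nat.fib (2 * t + 4) : ℝ) - 1) * (8 * q) ≤ D * (8 * q) := by
    linarith
  exact le_of_mul_le_mul_right h5 (by positivity)

end Pool.Agent.LibTri77
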