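import Pool.Agent.LibTri77.Cor

open Filter Topology Finset

namespace Pool.Agent.LibTri77

lemma cos_sum (q n : ℕ) (hq : 0 < q) :
    ∑ j ∈ range q, Real.cos (2 * Real.pi * n * ((j : ℝ) / q)) = if q ∣ n then (q : ℝ) else 0 := by
  have hq' : (q : ℂ) ≠ 0 := by exact_mod_cast hq.ne'
  set z : ℂ := Complex.exp (2 * Real.pi * Complex.I * n / q) with hz
  have h1 : ∀ j ∈ range q, Real.cos (2 * Real.pi * n * ((j : ℝ) / q)) = (z ^ j).re := by
    intro j _
    rw [hz, ← Complex.exp_nat_mul]
    have e : (j : ℂ) * (2 * Real.pi * Complex.I * n / q) =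
        ((2 * Real.pi * n * ((j : ℝ) / q) : ℝ) : ℂ) * Complex.I := by
      push_cast
      ring
    rw [e, Complex.exp_ofReal_mul_I_re]
  rw [sum_congr rfl h1, ← Complex.re_sum]
  split_ifs with hd
  · obtain ⟨m, rfl⟩ := hd
    have hz1 : z = 1 := by
      rw [hz, Complex.exp_eq_one_iff]
      refine ⟨m, ?_⟩
      push_cast
      field_simp
    rw [hz1]
    simp
  · have hz1 : z ≠ 1 := by
      intro h0
      rw [hz, Complex.exp_eq_one_iff] at h0
      obtain ⟨m, hm⟩ := h0
      apply hd
      have h2 : (n : ℂ) = m * q := by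
        have hpi : (Real.pi : ℂ) ≠ 0 := by exact_mod_cast Real.pi_ne_zero
        field_simp at hm
        rw [hm]
        ring
      have h3 : (n : ℤ) = m * q := by exact_mod_cast h2
      have h4 : (q : ℤ) ∣ n := ⟨m, by rw [h3]; ring⟩
      exact_mod_cast h4
    have hzq : z ^ q = 1 := by
      rw [hz, ← Complex.exp_nat_mul, Complex.exp_eq_one_iff]
      refine ⟨n, ?_⟩
      push_cast
      field_simp
    rw [geom_sum_eq hz1, hzq]
    simp

theorem distribution (q : ℕ) (hq : 1 ≤ q) :
    ∑ j ∈ range q, C3 ((j : ℝ) / q) = C3 0 / (q : ℝ) ^ 2 := by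
  have hq' : (0 : ℝ) < q := by exact_mod_cast hq
  have hsum : ∀ x : ℝ, Summable (fun n : ℕ =>
      Real.cos (2 * Real.pi * ((n : ℝ) + 1) * x) / ((n : ℝ) + 1) ^ 3) := by
    intro x
    apply Summable.of_norm_bounded (summable_pow 3 (by norm_num))
    intro n
    rw [norm_div, Real.norm_eq_abs,
      Real.norm_of_nonneg (by positivity : (0 : ℝ) ≤ ((n : ℝ) + 1) ^ 3)]
    exact div_le_div_of_nonneg_right (Real.abs_cos_le_one _) (by positivity)
  have h1 : ∑ j ∈ range q, C3 ((j : ℝ) / q) =
      ∑' n : ℕ, (if q ∣ n + 1 then (q : ℝ) else 0) / ((n : ℝ) + 1) ^ 3 := by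
    unfold C3
    rw [← Summable.tsum_finsetSum (fun j _ => hsum _)]
    apply tsum_congr
    intro n
    rw [← sum_div]
    congr 1
    have := cos_sum q (n + 1) hq
    push_cast at this
    exact this
  rw [h1]
  have hinj : Function.Injective (fun m : ℕ => q * (m + 1) - 1) := by
    intro a b hab
    simp only at hab
    have h2 : 1 ≤ q * (a + 1) := Nat.mul_pos hq (Nat.succ_pos a)
    have h3 : 1 ≤ q * (b + 1) := Nat.mul_pos hq (Nat.succ_pos b)
    have h4 : q * (a + 1) = q * (b + 1) := by omega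
    have h5 := Nat.eq_of_mul_eq_mul_left hq h4
    omega
  rw [← hinj.tsum_eq]
  · rw [C3_zero, ← tsum_div_const]
    apply tsum_congr
    intro m
    have h2 : 1 ≤ q * (m + 1) := Nat.mul_pos hq (Nat.succ_pos m)
    have h3 : q * (m + 1) - 1 + 1 = q * (m + 1) := by omega
    have h4 : (((q * (m + 1) - 1 : ℕ) : ℝ) + 1) = q * ((m : ℝ) + 1) := by
      have := congrArg (fun x : ℕ => (x : ℝ)) h3
      push_cast at this
      exact this
    rw [h3, if_pos (Dvd.intro _ rfl), h4]
    field_simp
  · intro n hn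
    rw [Function.mem_support] at hn
    have hd : q ∣ n + 1 := by
      by_contra hnd
      apply hn
      rw [if_neg hnd, zero_div]
    obtain ⟨m, hm⟩ := hd
    have hm1 : 1 ≤ m := by
      rcases Nat.eq_zero_or_pos m with h0 | h0
      · rw [h0] at hm
        omega
      · exact h0
    refine ⟨m - 1, ?_⟩
    simp only
    rw [Nat.sub_add_cancel hm1, ← hm]
    omega

end Pool.Agent.LibTri77
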