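import Mathlib

open Filter Topology

namespace Pool.Agent.LibTri77

/-- general term -/
noncomputable def tm (k n : ℕ) (x : ℝ) : ℝ :=
  Real.cos (2 * Real.pi * ((n : ℝ) + 1) * x - ((k : ℝ) - 1) * Real.pi / 2) / ((n : ℝ) + 1) ^ k

/-- `∑_{n ≥ 1} cos (2πnx - (k-1)π/2) / n^k` -/
noncomputable def U (k : ℕ) (x : ℝ) : ℝ := ∑' n : ℕ, tm k n x

lemma summable_pow (k : ℕ) (hk : 2 ≤ k) : Summable (fun n : ℕ => 1 / ((n : ℝ) + 1) ^ k) := by
  have h := (Real.summable_one_div_nat_pow (p := k)).2 (by omega)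
  have h2 := (summable_nat_add_iff 1).2 h
  refine h2.congr ?_
  intro n
  push_cast
  rfl

lemma tm_bound (k n : ℕ) (x : ℝ) : ‖tm k n x‖ ≤ 1 / ((n : ℝ) + 1) ^ k := by
  unfold tm
  rw [norm_div, Real.norm_eq_abs, Real.norm_of_nonneg (by positivity : (0 : ℝ) ≤ ((n : ℝ) + 1) ^ k)]
  exact div_le_div_of_nonneg_right (Real.abs_cos_le_one _) (by positivity)

lemma tm_summable (k : ℕ) (hk : 2 ≤ k) (x : ℝ) : Summable (fun n => tm k n x) :=
  Summable.of_norm_bounded (summable_pow k hk) (fun n => tm_bound k n x)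

lemma tm_deriv (k n : ℕ) (x : ℝ) :
    HasDerivAt (tm (k + 1) n) (2 * Real.pi * tm k n x) x := by
  unfold tm
  have h1 : HasDerivAt (fun x : ℝ => 2 * Real.pi * ((n : ℝ) + 1) * x -
      (((k + 1 : ℕ) : ℝ) - 1) * Real.pi / 2) (2 * Real.pi * ((n : ℝ) + 1)) x := by
    have := ((hasDerivAt_id x).const_mul (2 * Real.pi * ((n : ℝ) + 1))).sub_const
      ((((k + 1 : ℕ) : ℝ) - 1) * Real.pi / 2)
    simpa using this
  have h2 := (h1.cos).div_const (((n : ℝ) + 1) ^ (k + 1))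
  refine h2.congr_deriv ?_
  have e : Real.cos (2 * Real.pi * ((n : ℝ) + 1) * x - ((k : ℝ) - 1) * Real.pi / 2) =
      -Real.sin (2 * Real.pi * ((n : ℝ) + 1) * x - (((k + 1 : ℕ) : ℝ) - 1) * Real.pi / 2) := by
    rw [← Real.cos_add_pi_div_two]
    congr 1
    push_cast
    ring
  rw [e]
  have hn : ((n : ℝ) + 1) ≠ 0 := by positivity
  rw [pow_succ]
  field_simp

lemma U_deriv (k : ℕ) (hk : 2 ≤ k) (x : ℝ) : HasDerivAt (U (k + 1)) (2 * Real.pi * U k x) x := by
  have hpi := Real.pi_pos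
  unfold U
  rw [← tsum_mul_left]
  have hu : Summable (fun n : ℕ => 2 * Real.pi * (1 / ((n : ℝ) + 1) ^ k)) :=
    (summable_pow k hk).mul_left _
  apply hasDerivAt_tsum hu (fun n y => tm_deriv k n y) _ (tm_summable (k + 1) (by omega) 0) x
  intro n y
  rw [norm_mul, Real.norm_of_nonneg (by positivity : (0 : ℝ) ≤ 2 * Real.pi)]
  exact mul_le_mul_of_nonneg_left (tm_bound k n y) (by positivity)

/-- the Abel regularisation of `U 2` -/
noncomputable def f (r : ℝ) (x : ℝ) : ℝ := ∑' n : ℕ, r ^ (n + 1) * tm 2 n x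

/-- the point `r e^{2πix}` -/
noncomputable def zz (r x : ℝ) : ℂ := r * Complex.exp (((2 * Real.pi * x : ℝ) : ℂ) * Complex.I)

lemma zz_norm (r x : ℝ) (hr : 0 ≤ r) : ‖zz r x‖ = r := by
  unfold zz
  rw [norm_mul, Complex.norm_exp_ofReal_mul_I, mul_one, Complex.norm_real, Real.norm_of_nonneg hr]

lemma zz_pow_re (r x : ℝ) (n : ℕ) : (zz r x ^ n).re = r ^ n * Real.cos (2 * Real.pi * n * x) := by
  unfold zz
  rw [mul_pow, ← Complex.exp_nat_mul]
  have e : (n : ℂ) * (((2 * Real.pi * x : ℝ) : ℂ) * Complex.I) =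
      ((2 * Real.pi * n * x : ℝ) : ℂ) * Complex.I := by
    push_cast
    ring
  rw [e, ← Complex.ofReal_pow, Complex.re_ofReal_mul, Complex.exp_ofReal_mul_I_re]

lemma sum_log (r x : ℝ) (hr : 0 ≤ r) (hr1 : r < 1) :
    HasSum (fun n : ℕ => r ^ (n + 1) * tm 1 n x) (-Real.log ‖1 - zz r x‖) := by
  have h := Complex.hasSum_taylorSeries_neg_log (z := zz r x) (by rw [zz_norm r x hr]; exact hr1)
  have h2 := (Complex.hasSum_re h)
  have h3 := (hasSum_nat_add_iff' 1).2 h2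
  simp only [Finset.range_one, Finset.sum_singleton, pow_zero, Nat.cast_zero, div_zero,
    Complex.zero_re, sub_zero, Complex.neg_re, Complex.log_re] at h3
  refine h3.congr_fun ?_
  intro n
  have e : (zz r x ^ (n + 1) / ((n + 1 : ℕ) : ℂ)).re = (zz r x ^ (n + 1)).re / ((n + 1 : ℕ) : ℝ) := by
    rw [← Complex.ofReal_natCast, Complex.div_ofReal_re]
  rw [e, zz_pow_re]
  unfold tm
  push_cast
  simp only [pow_one, sub_self, zero_mul, zero_div, sub_zero]
  ring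

lemma f_deriv (r : ℝ) (hr : 0 ≤ r) (hr1 : r < 1) (x : ℝ) :
    HasDerivAt (f r) (-(2 * Real.pi) * Real.log ‖1 - zz r x‖) x := by
  have hpi := Real.pi_pos
  have hval : -(2 * Real.pi) * Real.log ‖1 - zz r x‖ =
      ∑' n : ℕ, r ^ (n + 1) * (2 * Real.pi * tm 1 n x) := by
    have h := (sum_log r x hr hr1).mul_left (2 * Real.pi)
    have h2 := h.tsum_eq
    rw [show -(2 * Real.pi) * Real.log ‖1 - zz r x‖ = 2 * Real.pi * -Real.log ‖1 - zz r x‖ by ring,
      ← h2]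
    apply tsum_congr
    intro n
    ring
  rw [hval]
  unfold f
  have hgeo : Summable (fun n : ℕ => 2 * Real.pi * r ^ (n + 1)) := by
    apply Summable.mul_left
    exact (summable_nat_add_iff 1).2 (summable_geometric_of_lt_one hr hr1)
  refine hasDerivAt_tsum (y₀ := 0) hgeo (fun n y => (tm_deriv 1 n y).const_mul (r ^ (n + 1))) ?_ ?_ x
  · intro n y
    rw [norm_mul, norm_mul, Real.norm_of_nonneg (by positivity : (0 : ℝ) ≤ r ^ (n + 1)),
      Real.norm_of_nonneg (by positivity : (0 : ℝ) ≤ 2 * Real.pi)]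
    have h1 := tm_bound 1 n y
    have h2 : 1 / ((n : ℝ) + 1) ^ 1 ≤ 1 := by
      rw [pow_one, div_le_one (by positivity)]
      have : (0 : ℝ) ≤ n := Nat.cast_nonneg n
      linarith
    have h3 := mul_le_mul_of_nonneg_left (h1.trans h2)
      (by positivity : (0 : ℝ) ≤ r ^ (n + 1) * (2 * Real.pi))
    linarith
  · apply Summable.of_norm_bounded (g := fun n : ℕ => r ^ (n + 1))
      ((summable_nat_add_iff 1).2 (summable_geometric_of_lt_one hr hr1))
    intro n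
    show ‖r ^ (n + 1) * tm 2 n 0‖ ≤ r ^ (n + 1)
    rw [norm_mul, Real.norm_of_nonneg (by positivity : (0 : ℝ) ≤ r ^ (n + 1))]
    have h1 := tm_bound 2 n 0
    have h2 : 1 / ((n : ℝ) + 1) ^ 2 ≤ 1 := by
      rw [div_le_one (by positivity)]
      have : (0 : ℝ) ≤ n := Nat.cast_nonneg n
      nlinarith
    have h3 := mul_le_mul_of_nonneg_left (h1.trans h2) (by positivity : (0 : ℝ) ≤ r ^ (n + 1))
    linarith

lemma f_tendsto (x : ℝ) : Tendsto (fun r => f r x) (𝓝[<] 1) (𝓝 (U 2 x)) := by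
  unfold f U
  apply tendsto_tsum_of_dominated_convergence (bound := fun n : ℕ => 1 / ((n : ℝ) + 1) ^ 2)
    (summable_pow 2 le_rfl)
  · intro n
    have : Tendsto (fun r : ℝ => r ^ (n + 1) * tm 2 n x) (𝓝 1) (𝓝 (1 ^ (n + 1) * tm 2 n x)) := by
      apply Tendsto.mul_const
      exact (continuous_pow (n + 1)).tendsto 1
    rw [one_pow, one_mul] at this
    exact this.mono_left nhdsWithin_le_nhds
  · have h1 : ∀ᶠ r : ℝ in 𝓝[<] 1, r ∈ Set.Ioo (0 : ℝ) 1 := Ioo_mem_nhdsLT (by norm_num)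
    filter_upwards [h1] with r hr n
    rw [norm_mul, Real.norm_of_nonneg (pow_nonneg hr.1.le _)]
    have h2 := tm_bound 2 n x
    have h3 : r ^ (n + 1) ≤ 1 := pow_le_one₀ hr.1.le hr.2.le
    calc r ^ (n + 1) * ‖tm 2 n x‖ ≤ 1 * ‖tm 2 n x‖ := mul_le_mul_of_nonneg_right h3 (norm_nonneg _)
      _ = ‖tm 2 n x‖ := one_mul _
      _ ≤ _ := h2

lemma normsq (r s : ℝ) : ‖1 - zz r s‖ ^ 2 = (1 - r) ^ 2 + 4 * r * Real.sin (Real.pi * s) ^ 2 := by
  rw [← Complex.normSq_eq_norm_sq, Complex.normSq_apply]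
  unfold zz
  rw [Complex.sub_re, Complex.sub_im, Complex.re_ofReal_mul, Complex.im_ofReal_mul,
    Complex.exp_ofReal_mul_I_re, Complex.exp_ofReal_mul_I_im]
  have h1 : Real.cos (2 * Real.pi * s) = 1 - 2 * Real.sin (Real.pi * s) ^ 2 := by
    rw [show 2 * Real.pi * s = 2 * (Real.pi * s) by ring, Real.cos_two_mul, Real.cos_sq']
    ring
  have h2 := Real.sin_sq_add_cos_sq (2 * Real.pi * s)
  simp only [Complex.one_re, Complex.one_im]
  have h3 : (1 - r * Real.cos (2 * Real.pi * s)) * (1 - r * Real.cos (2 * Real.pi * s)) +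
      (0 - r * Real.sin (2 * Real.pi * s)) * (0 - r * Real.sin (2 * Real.pi * s)) =
      1 - 2 * r * Real.cos (2 * Real.pi * s) + r ^ 2 *
        (Real.sin (2 * Real.pi * s) ^ 2 + Real.cos (2 * Real.pi * s) ^ 2) := by ring
  rw [h3, h2, h1]
  ring

lemma norm_one (s : ℝ) (h0 : 0 < s) (h1 : s < 1) : ‖1 - zz 1 s‖ = 2 * Real.sin (Real.pi * s) := by
  have hpi := Real.pi_pos
  have hs : 0 < Real.sin (Real.pi * s) := by
    apply Real.sin_pos_of_pos_of_lt_pi (by positivity)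
    nlinarith
  have h := normsq 1 s
  have h2 : ‖1 - zz 1 s‖ ^ 2 = (2 * Real.sin (Real.pi * s)) ^ 2 := by
    rw [h]
    ring
  exact (pow_left_inj₀ (norm_nonneg _) (by positivity) (by norm_num)).1 h2

/-- lower bound of the norm -/
lemma norm_lower (r s : ℝ) (hr : 1 / 2 ≤ r) (h0 : 0 < s) (h1 : s < 1) :
    Real.sin (Real.pi * s) ≤ ‖1 - zz r s‖ := by
  have hpi := Real.pi_pos
  have hs : 0 < Real.sin (Real.pi * s) := by
    apply Real.sin_pos_of_pos_of_lt_pi (by positivity)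
    nlinarith
  have h := normsq r s
  apply le_of_sq_le_sq _ (norm_nonneg _)
  rw [h]
  nlinarith [sq_nonneg (1 - r), sq_nonneg (Real.sin (Real.pi * s))]

end Pool.Agent.LibTri77
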