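import Pool.Agent.LibTri77.Abel

open Filter Topology MeasureTheory

namespace Pool.Agent.LibTri77

/-- the derivative of `U 2` on `(0,1)` -/
noncomputable def gl (s : ℝ) : ℝ := -(2 * Real.pi) * Real.log (2 * Real.sin (Real.pi * s))

lemma sin_pos1 (s : ℝ) (h0 : 0 < s) (h1 : s < 1) : 0 < Real.sin (Real.pi * s) := by
  have hpi := Real.pi_pos
  apply Real.sin_pos_of_pos_of_lt_pi (by positivity)
  nlinarith

lemma zz_cont : Continuous (fun p : ℝ × ℝ => zz p.1 p.2) := by
  unfold zz
  fun_prop

lemma norm_ne (r s : ℝ) (hr : 0 ≤ r) (hr1 : r < 1) : ‖1 - zz r s‖ ≠ 0 := by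
  have h1 := norm_sub_norm_le (1 : ℂ) (zz r s)
  rw [zz_norm r s hr] at h1
  have h2 : ‖(1 : ℂ)‖ = 1 := by simp
  rw [h2] at h1
  intro h3
  linarith

lemma log_cont (r : ℝ) (hr : 0 ≤ r) (hr1 : r < 1) :
    Continuous (fun s => -(2 * Real.pi) * Real.log ‖1 - zz r s‖) := by
  have h1 : Continuous (fun s => zz r s) := zz_cont.comp (Continuous.prodMk continuous_const continuous_id)
  have h2 : Continuous (fun s => ‖1 - zz r s‖) := (continuous_const.sub h1).norm
  exact continuous_const.mul (h2.log (fun s => norm_ne r s hr hr1))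

lemma norm_le_two (r s : ℝ) (hr : 0 ≤ r) (hr1 : r ≤ 1) : ‖1 - zz r s‖ ≤ 2 := by
  have h1 := norm_sub_le (1 : ℂ) (zz r s)
  rw [zz_norm r s hr] at h1
  have h2 : ‖(1 : ℂ)‖ = 1 := by simp
  rw [h2] at h1
  linarith

lemma U2_integral (c d : ℝ) (hc0 : 0 < c) (hc1 : c < 1) (hd0 : 0 < d) (hd1 : d < 1) :
    U 2 d - U 2 c = ∫ s in c..d, gl s := by
  have hpi := Real.pi_pos
  have hsub : ∀ s ∈ Set.uIcc c d, 0 < s ∧ s < 1 := by
    intro s hs
    rw [Set.mem_uIcc] at hs
    rcases hs with ⟨h1, h2⟩ | ⟨h1, h2⟩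
    · exact ⟨by linarith, by linarith⟩
    · exact ⟨by linarith, by linarith⟩
  obtain ⟨δ, hδ0, hδ⟩ : ∃ δ > 0, ∀ s ∈ Set.uIcc c d, δ ≤ Real.sin (Real.pi * s) := by
    have hcont : ContinuousOn (fun s => Real.sin (Real.pi * s)) (Set.uIcc c d) := by
      apply Continuous.continuousOn
      fun_prop
    obtain ⟨s0, hs0, hmin⟩ := isCompact_uIcc.exists_isMinOn Set.nonempty_uIcc hcont
    exact ⟨_, sin_pos1 s0 (hsub s0 hs0).1 (hsub s0 hs0).2, fun s hs => hmin hs⟩
  have hδ1 : δ ≤ 1 := (hδ c Set.left_mem_uIcc).trans (Real.sin_le_one _)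
  have h1 : Tendsto (fun r => f r d - f r c) (𝓝[<] 1) (𝓝 (U 2 d - U 2 c)) :=
    (f_tendsto d).sub (f_tendsto c)
  have hev : ∀ᶠ r : ℝ in 𝓝[<] 1, r ∈ Set.Ioo (1 / 2 : ℝ) 1 := Ioo_mem_nhdsLT (by norm_num)
  have h2 : Tendsto (fun r => ∫ s in c..d, -(2 * Real.pi) * Real.log ‖1 - zz r s‖) (𝓝[<] 1)
      (𝓝 (∫ s in c..d, gl s)) := by
    apply intervalIntegral.tendsto_integral_filter_of_dominated_convergence
      (fun _ => 2 * Real.pi * (Real.log 2 - Real.log δ))
    · filter_upwards [hev] with r hr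
      exact (log_cont r (by linarith [hr.1]) hr.2).aestronglyMeasurable
    · filter_upwards [hev] with r hr
      apply Filter.Eventually.of_forall
      intro s hs
      have hs' : s ∈ Set.uIcc c d := Set.uIoc_subset_uIcc hs
      have h3 := norm_lower r s hr.1.le (hsub s hs').1 (hsub s hs').2
      have h4 := hδ s hs'
      have h5 := norm_le_two r s (by linarith [hr.1]) hr.2.le
      have h6 : 0 < ‖1 - zz r s‖ := by linarith
      rw [norm_mul, norm_neg, Real.norm_of_nonneg (by positivity : (0 : ℝ) ≤ 2 * Real.pi)]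
      apply mul_le_mul_of_nonneg_left _ (by positivity)
      rw [Real.norm_eq_abs, abs_le]
      have h7 := Real.log_le_log h6 h5
      have h8 := Real.log_le_log hδ0 (h4.trans h3)
      have h9 : 0 ≤ Real.log 2 := Real.log_nonneg (by norm_num)
      have h10 : Real.log δ ≤ 0 := Real.log_nonpos hδ0.le hδ1
      constructor <;> linarith
    · exact intervalIntegrable_const
    · apply Filter.Eventually.of_forall
      intro s hs
      have hs' : s ∈ Set.uIcc c d := Set.uIoc_subset_uIcc hs
      have hn := Pool.Agent.LibTri77.norm_one s (hsub s hs').1 (hsub s hs').2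
      have hsp := sin_pos1 s (hsub s hs').1 (hsub s hs').2
      unfold gl
      rw [← hn]
      apply Tendsto.const_mul
      have hc : Tendsto (fun r => ‖1 - zz r s‖) (𝓝[<] 1) (𝓝 ‖1 - zz 1 s‖) := by
        have h1 : Continuous (fun r => ‖1 - zz r s‖) :=
          (continuous_const.sub (zz_cont.comp (Continuous.prodMk continuous_id continuous_const))).norm
        exact (h1.tendsto 1).mono_left nhdsWithin_le_nhds
      apply Tendsto.log hc
      rw [hn]
      positivity
  refine tendsto_nhds_unique h1 (h2.congr' ?_)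
  filter_upwards [hev] with r hr
  have hr0 : 0 ≤ r := by linarith [hr.1]
  exact intervalIntegral.integral_eq_sub_of_hasDerivAt (fun x _ => f_deriv r hr0 hr.2 x)
    ((log_cont r hr0 hr.2).intervalIntegrable _ _)

lemma gl_meas : Measurable gl := by
  unfold gl
  have h : Measurable (fun s => Real.log (2 * Real.sin (Real.pi * s))) := by
    apply Real.measurable_log.comp
    apply Continuous.measurable
    fun_prop
  exact h.const_mul _

lemma gl_contAt (x : ℝ) (h0 : 0 < x) (h1 : x < 1) : ContinuousAt gl x := by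
  unfold gl
  have hs := sin_pos1 x h0 h1
  apply ContinuousAt.mul continuousAt_const
  apply ContinuousAt.log
  · apply Continuous.continuousAt
    fun_prop
  · positivity

lemma U2_deriv (x : ℝ) (h0 : 0 < x) (h1 : x < 1) : HasDerivAt (U 2) (gl x) x := by
  have hint : IntervalIntegrable gl volume (1 / 2) x := by
    apply ContinuousOn.intervalIntegrable
    intro s hs
    rw [Set.mem_uIcc] at hs
    apply ContinuousAt.continuousWithinAt
    rcases hs with ⟨h2, h3⟩ | ⟨h2, h3⟩
    · exact gl_contAt s (by linarith) (by linarith)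
    · exact gl_contAt s (by linarith) (by linarith)
  have h := intervalIntegral.integral_hasDerivAt_right hint
    (gl_meas.stronglyMeasurable.stronglyMeasurableAtFilter) (gl_contAt x h0 h1)
  have h2 := h.const_add (U 2 (1 / 2))
  refine h2.congr_of_eventuallyEq ?_
  filter_upwards [Ioo_mem_nhds h0 h1] with y hy
  have := U2_integral (1 / 2) y (by norm_num) (by norm_num) hy.1 hy.2
  linarith

/-- `U 1` on `(0,1)` -/
noncomputable def U1 (s : ℝ) : ℝ := -Real.log (2 * Real.sin (Real.pi * s))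

/-- its derivative -/
noncomputable def ct (s : ℝ) : ℝ := Real.pi * Real.cos (Real.pi * s) / Real.sin (Real.pi * s)

lemma U2_deriv' (x : ℝ) (h0 : 0 < x) (h1 : x < 1) : HasDerivAt (U 2) (2 * Real.pi * U1 x) x := by
  have := U2_deriv x h0 h1
  refine this.congr_deriv ?_
  unfold gl U1
  ring

lemma U1_deriv (x : ℝ) (h0 : 0 < x) (h1 : x < 1) : HasDerivAt U1 (-ct x) x := by
  have hs := sin_pos1 x h0 h1
  have h2 : HasDerivAt (fun s : ℝ => Real.pi * s) Real.pi x := by
    simpa using (hasDerivAt_id x).const_mul Real.pi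
  have h3 := ((h2.sin.const_mul 2).log (by positivity)).neg
  unfold U1
  refine h3.congr_deriv ?_
  unfold ct
  field_simp

end Pool.Agent.LibTri77
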