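import Pool.Agent.LibTri77.Cot

open Filter Topology Finset

namespace Pool.Agent.LibTri77

/-- the extremal value -/
noncomputable def W (h : ℝ) (a M : ℕ) : ℝ :=
  M.factorial * h ^ M / ∏ i ∈ range (M + 1), (((a : ℝ) + i) * h)

lemma W_pos (h : ℝ) (a M : ℕ) (hh : 0 < h) (ha : 1 ≤ a) : 0 < W h a M := by
  unfold W
  have ha' : (0 : ℝ) < a := by exact_mod_cast ha
  apply div_pos (by positivity)
  apply prod_pos
  intro i _
  positivity

lemma prod_cmp (h : ℝ) (a M n : ℕ) (hh : 0 < h) (ha : 1 ≤ a) (hM : 1 ≤ M)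
    (z : ℕ → ℝ) (hz : ∀ i, i ≤ M → ((a : ℝ) + i) * h + n ≤ z i)
    (h1 : ((a : ℝ) + M) * h ≤ 1) :
    M.factorial * h ^ M / ∏ i ∈ range (M + 1), z i ≤ W h a M * (1 / ((n : ℝ) + 1) ^ 2) := by
  have ha' : (0 : ℝ) < a := by exact_mod_cast ha
  unfold W
  rw [div_mul_div_comm, mul_one]
  apply div_le_div_of_nonneg_left (by positivity)
  · apply mul_pos
    · apply prod_pos
      intro i _
      positivity
    · positivity
  · have h2 : ∏ i ∈ range (M + 1), ((((a : ℝ) + i) * h) * ((n : ℝ) + 1)) ≤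
        ∏ i ∈ range (M + 1), z i := by
      apply Finset.prod_le_prod
      · intro i _
        positivity
      · intro i hi
        rw [mem_range] at hi
        refine le_trans ?_ (hz i (by omega))
        have h3 : ((a : ℝ) + i) * h ≤ 1 := by
          refine le_trans ?_ h1
          apply mul_le_mul_of_nonneg_right _ hh.le
          have : (i : ℝ) ≤ M := by exact_mod_cast (by omega : i ≤ M)
          linarith
        have h4 : (0 : ℝ) ≤ n := Nat.cast_nonneg n
        nlinarith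
    rw [prod_mul_distrib, prod_const, card_range] at h2
    refine le_trans ?_ h2
    apply mul_le_mul_of_nonneg_left
    · apply pow_le_pow_right₀
      · have : (0 : ℝ) ≤ n := Nat.cast_nonneg n
        linarith
      · omega
    · apply prod_nonneg
      intro i _
      positivity

lemma odd_neg (M : ℕ) (hM : Odd M) (x : ℝ) : -((-1) ^ M * x) = x := by
  rw [hM.neg_one_pow]
  ring

/-- terms with nonnegative shift -/
lemma term_pos (h : ℝ) (a M n : ℕ) (y : ℝ) (hh : 0 < h) (ha : 1 ≤ a) (hM : Odd M)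
    (hy : (a : ℝ) * h ≤ y) (h1 : ((a : ℝ) + M) * h ≤ 1) :
    0 < -(fwdDiff h)^[M] (fun x => 1 / (x + (n : ℝ))) y ∧
    -(fwdDiff h)^[M] (fun x => 1 / (x + (n : ℝ))) y ≤ W h a M * (1 / ((n : ℝ) + 1) ^ 2) := by
  have ha' : (0 : ℝ) < a := by exact_mod_cast ha
  have hy0 : 0 < y := lt_of_lt_of_le (by positivity) hy
  have hn : (0 : ℝ) ≤ n := Nat.cast_nonneg n
  have hpos : ∀ i : ℕ, 0 < y + n + i * h := by
    intro i
    have : 0 ≤ (i : ℝ) * h := by positivity
    linarith
  rw [inv_diff h n M y (fun i _ => (hpos i).ne'), odd_neg M hM]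
  constructor
  · apply div_pos (by positivity)
    exact prod_pos (fun i _ => hpos i)
  · apply prod_cmp h a M n hh ha (by rcases hM with ⟨m, rfl⟩; omega) _ _ h1
    intro i _
    nlinarith

/-- terms with negative shift -/
lemma term_neg (h : ℝ) (a M K q n : ℕ) (y : ℝ) (hh : 0 < h) (ha : 1 ≤ a) (hM : Odd M)
    (hq : (q : ℝ) * h = 1) (hy0 : 0 < y)
    (hy : y ≤ ((a : ℝ) + K) * h) (hK : 2 * a + M + K ≤ q) (h1 : ((a : ℝ) + M) * h ≤ 1) :
    0 < -(fwdDiff h)^[M] (fun x => 1 / (x + -((n : ℝ) + 1))) y ∧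
    -(fwdDiff h)^[M] (fun x => 1 / (x + -((n : ℝ) + 1))) y ≤ W h a M * (1 / ((n : ℝ) + 1) ^ 2) := by
  have ha' : (0 : ℝ) < a := by exact_mod_cast ha
  have hn : (0 : ℝ) ≤ n := Nat.cast_nonneg n
  have hK' : (2 * (a : ℝ) + M + K) * h ≤ 1 := by
    rw [← hq]
    apply mul_le_mul_of_nonneg_right _ hh.le
    exact_mod_cast hK
  have hz : ∀ i : ℕ, i ≤ M → ((a : ℝ) + i) * h + n ≤ (n : ℝ) + 1 - y - ((M : ℝ) - i) * h := by
    intro i _
    nlinarith
  have hneg : ∀ i : ℕ, i ≤ M → y + -((n : ℝ) + 1) + i * h < 0 := by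
    intro i hi
    have h2 := hz (M - i) (by omega)
    rw [Nat.cast_sub hi] at h2
    have h3 : 0 < ((a : ℝ) + ((M : ℝ) - i)) * h := by
      apply mul_pos _ hh
      have : (i : ℝ) ≤ M := by exact_mod_cast hi
      linarith
    nlinarith
  rw [inv_diff h _ M y (fun i hi => (hneg i hi).ne), odd_neg M hM]
  have hprod : ∏ i ∈ range (M + 1), (y + -((n : ℝ) + 1) + (i : ℝ) * h) =
      ∏ i ∈ range (M + 1), ((n : ℝ) + 1 - y - ((M : ℝ) - i) * h) := by
    have e1 : ∏ i ∈ range (M + 1), (y + -((n : ℝ) + 1) + (i : ℝ) * h) =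
        ∏ i ∈ range (M + 1), ((n : ℝ) + 1 - y - (i : ℝ) * h) := by
      have e2 : ∀ i ∈ range (M + 1), (y + -((n : ℝ) + 1) + (i : ℝ) * h) =
          (-1) * ((n : ℝ) + 1 - y - (i : ℝ) * h) := by
        intro i _
        ring
      rw [prod_congr rfl e2, prod_mul_distrib, prod_const, card_range]
      have : Even (M + 1) := by
        rcases hM with ⟨m, rfl⟩
        exact ⟨m + 1, by ring⟩
      rw [this.neg_one_pow, one_mul]
    rw [e1, ← prod_range_reflect]
    apply prod_congr rfl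
    intro i hi
    rw [mem_range] at hi
    rw [Nat.add_sub_cancel, Nat.cast_sub (by omega)]
  rw [hprod]
  constructor
  · apply div_pos (by positivity)
    apply prod_pos
    intro i hi
    rw [mem_range] at hi
    have := hz i (by omega)
    have h4 : 0 < ((a : ℝ) + i) * h := by positivity
    linarith
  · exact prod_cmp h a M n hh ha (by rcases hM with ⟨m, rfl⟩; omega) _ hz h1

lemma zeta_two_le : HasSum (fun n : ℕ => 1 / ((n : ℝ) + 1) ^ 2) (Real.pi ^ 2 / 6) := by
  have h := hasSum_zeta_two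
  have h2 := (hasSum_nat_add_iff' 1).2 h
  simp at h2
  refine h2.congr_fun ?_
  intro n
  simp

/-- bound for the differences of the cotangent -/
lemma ct_bound (h : ℝ) (a M K q : ℕ) (y : ℝ) (hh : 0 < h) (ha : 1 ≤ a) (hM : Odd M)
    (hq : (q : ℝ) * h = 1) (hy1 : (a : ℝ) * h ≤ y)
    (hy : y ≤ ((a : ℝ) + K) * h) (hK : 2 * a + M + K ≤ q) :
    0 < (fwdDiff h)^[M] (fun x => -ct x) y ∧ (fwdDiff h)^[M] (fun x => -ct x) y ≤ 4 * W h a M := by
  have ha' : (0 : ℝ) < a := by exact_mod_cast ha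
  have hy0 : 0 < y := lt_of_lt_of_le (by positivity) hy1
  have hK' : (2 * (a : ℝ) + M + K) * h ≤ 1 := by
    rw [← hq]
    apply mul_le_mul_of_nonneg_right _ hh.le
    exact_mod_cast hK
  have hah : 0 < (a : ℝ) * h := by positivity
  have hKh : 0 ≤ (K : ℝ) * h := by positivity
  have h1 : ((a : ℝ) + M) * h ≤ 1 := by nlinarith
  have h2 : y + M * h < 1 := by nlinarith
  have hW := W_pos h a M hh ha
  have hneg : (fwdDiff h)^[M] (fun x => -ct x) y = -(fwdDiff h)^[M] ct y := by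
    simp only [fwdDiff_iter_eq_sum_shift, smul_neg, sum_neg_distrib]
  have hs := (ct_diff h M y hh hy0 h2).neg
  have hs1 := zeta_two_le.mul_left (W h a M)
  have hs2 : HasSum (fun n : ℕ => W h a M * (1 / (((n + 1 : ℕ) : ℝ) + 1) ^ 2))
      (W h a M * (Real.pi ^ 2 / 6) - W h a M) := by
    have := (hasSum_nat_add_iff' 1).2 hs1
    simpa using this
  have h0 := term_pos h a M 0 y hh ha hM hy1 h1
  have hle : -((fwdDiff h)^[M] ct y - (fwdDiff h)^[M] (fun x => 1 / (x + 0)) y) ≤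
      W h a M * (Real.pi ^ 2 / 6) + (W h a M * (Real.pi ^ 2 / 6) - W h a M) := by
    refine hasSum_le ?_ hs (hs1.add hs2)
    intro n
    have h3 := (term_neg h a M K q n y hh ha hM hq hy0 hy hK h1).2
    have h4 := (term_pos h a M (n + 1) y hh ha hM hy1 h1).2
    push_cast at h4 ⊢
    linarith
  have hge : 0 ≤ -((fwdDiff h)^[M] ct y - (fwdDiff h)^[M] (fun x => 1 / (x + 0)) y) := by
    refine hasSum_le ?_ hasSum_zero hs
    intro n
    have h3 := (term_neg h a M K q n y hh ha hM hq hy0 hy hK h1).1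
    have h4 := (term_pos h a M (n + 1) y hh ha hM hy1 h1).1
    push_cast at h4
    linarith
  simp only [Nat.cast_zero, zero_add, one_pow, div_one, mul_one] at h0
  rw [hneg]
  have hpi : Real.pi ^ 2 ≤ 10 := by
    have h5 := Real.pi_lt_d2
    have h6 := Real.pi_pos
    nlinarith
  constructor
  · linarith [h0.1]
  · have h7 : W h a M * (Real.pi ^ 2 / 6) ≤ W h a M * 2 :=
      mul_le_mul_of_nonneg_left (by linarith) hW.le
    linarith [h0.2]

/-- derivative of an iterated difference -/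
lemma iter_deriv (F F' : ℝ → ℝ) (h : ℝ) (hh : 0 < h)
    (hd : ∀ x, 0 < x → x < 1 → HasDerivAt F (F' x) x) (N : ℕ) :
    ∀ x, 0 < x → x + N * h < 1 → HasDerivAt ((fwdDiff h)^[N] F) ((fwdDiff h)^[N] F' x) x := by
  induction N with
  | zero =>
    intro x h0 h1
    simp at h1
    exact hd x h0 h1
  | succ N ih =>
    intro x h0 h1
    push_cast at h1
    rw [Function.iterate_succ_apply', Function.iterate_succ_apply']
    have h2 : HasDerivAt (fun t => (fwdDiff h)^[N] F (t + h)) ((fwdDiff h)^[N] F' (x + h)) x := by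
      have := ih (x + h) (by linarith) (by linarith)
      exact this.comp_add_const x h
    have h3 := ih x h0 (by linarith)
    exact h2.sub h3

/-- one integration step -/
lemma mvt_step (F F' : ℝ → ℝ) (h : ℝ) (hh : 0 < h)
    (hd : ∀ x, 0 < x → x < 1 → HasDerivAt F (F' x) x) (N : ℕ) (y B : ℝ) (h0 : 0 < y)
    (h1 : y + h + N * h < 1)
    (hb : ∀ ξ, y ≤ ξ → ξ ≤ y + h → 0 < (fwdDiff h)^[N] F' ξ ∧ (fwdDiff h)^[N] F' ξ ≤ B) :
    0 < (fwdDiff h)^[N + 1] F y ∧ (fwdDiff h)^[N + 1] F y ≤ h * B := by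
  have hder := iter_deriv F F' h hh hd N
  have hNh : 0 ≤ (N : ℝ) * h := by positivity
  obtain ⟨ξ, hξ, hs⟩ := exists_hasDerivAt_eq_slope ((fwdDiff h)^[N] F) ((fwdDiff h)^[N] F')
    (show y < y + h by linarith)
    (fun x hx => (hder x (by linarith [hx.1]) (by linarith [hx.2])).continuousAt.continuousWithinAt)
    (fun x hx => hder x (by linarith [hx.1]) (by linarith [hx.2]))
  rw [Function.iterate_succ_apply']
  show 0 < (fwdDiff h)^[N] F (y + h) - (fwdDiff h)^[N] F y ∧
    (fwdDiff h)^[N] F (y + h) - (fwdDiff h)^[N] F y ≤ h * B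
  have h2 : (fwdDiff h)^[N] F (y + h) - (fwdDiff h)^[N] F y = h * (fwdDiff h)^[N] F' ξ := by
    rw [hs]
    rw [add_sub_cancel_left]
    field_simp
  rw [h2]
  have h3 := hb ξ hξ.1.le hξ.2.le
  exact ⟨mul_pos hh h3.1, mul_le_mul_of_nonneg_left h3.2 hh.le⟩

end Pool.Agent.LibTri77
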