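import Pool.Agent.LibTri77.Base

open Filter Topology Finset

namespace Pool.Agent.LibTri77

/-- iterated forward difference of `1 / (x + c)` -/
lemma inv_diff (h c : ℝ) (M : ℕ) : ∀ y : ℝ, (∀ i : ℕ, i ≤ M → y + c + i * h ≠ 0) →
    (fwdDiff h)^[M] (fun x => 1 / (x + c)) y =
      (-1) ^ M * (M.factorial * h ^ M / ∏ i ∈ range (M + 1), (y + c + i * h)) := by
  induction M with
  | zero =>
    intro y _
    simp
  | succ M ih =>
    intro y hy
    rw [Function.iterate_succ_apply']
    show (fwdDiff h)^[M] (fun x => 1 / (x + c)) (y + h) -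
      (fwdDiff h)^[M] (fun x => 1 / (x + c)) y = _
    rw [ih y (fun i hi => hy i (by omega)), ih (y + h) (fun i hi => by
      have := hy (i + 1) (by omega)
      push_cast at this
      intro h0
      apply this
      linarith)]
    set P : ℝ := ∏ i ∈ range M, (y + c + ((i : ℝ) + 1) * h) with hP
    have hA : ∏ i ∈ range (M + 1), (y + h + c + (i : ℝ) * h) = P * (y + c + ((M : ℝ) + 1) * h) := by
      rw [prod_range_succ, hP]
      congr 1
      · apply prod_congr rfl
        intro i _
        ring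
      · ring
    have hB : ∏ i ∈ range (M + 1), (y + c + (i : ℝ) * h) = P * (y + c) := by
      rw [prod_range_succ', hP]
      congr 1
      · apply prod_congr rfl
        intro i _
        push_cast
        ring
      · simp
    have hC : ∏ i ∈ range (M + 1 + 1), (y + c + (i : ℝ) * h) =
        P * (y + c) * (y + c + ((M : ℝ) + 1) * h) := by
      rw [prod_range_succ, hB]
      push_cast
      ring
    have hPne : P ≠ 0 := by
      rw [hP, prod_ne_zero_iff]
      intro i hi
      rw [mem_range] at hi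
      have := hy (i + 1) (by omega)
      push_cast at this
      exact this
    have h0 : y + c ≠ 0 := by
      have := hy 0 (by omega)
      simpa using this
    have h1 : y + c + ((M : ℝ) + 1) * h ≠ 0 := by
      have := hy (M + 1) le_rfl
      push_cast at this
      exact this
    rw [hA, hB, hC, Nat.factorial_succ]
    push_cast
    field_simp
    ring

lemma mem_compl (x : ℝ) (h0 : 0 < x) (h1 : x < 1) : (x : ℂ) ∈ Complex.integerComplement := by
  rw [Complex.mem_integerComplement_iff]
  rintro ⟨n, hn⟩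
  have h2 : (n : ℝ) = x := by exact_mod_cast hn
  rw [← h2] at h0 h1
  have h3 : 0 < n := by exact_mod_cast h0
  have h4 : n < 1 := by exact_mod_cast h1
  omega

/-- the cotangent series -/
lemma ct_hasSum (x : ℝ) (h0 : 0 < x) (h1 : x < 1) :
    HasSum (fun n : ℕ => 1 / (x + -((n : ℝ) + 1)) + 1 / (x + ((n : ℝ) + 1))) (ct x - 1 / (x + 0)) := by
  have hz := mem_compl x h0 h1
  have hs := (summable_cotTerm hz).hasSum
  have hval := cot_series_rep' hz
  have hval2 : ∑' n : ℕ, cotTerm (x : ℂ) n = Real.pi * Complex.cot (Real.pi * x) - 1 / x := by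
    rw [hval]
  rw [hval2] at hs
  have h2 := Complex.hasSum_re hs
  have e : (Real.pi * Complex.cot (Real.pi * x) - 1 / x : ℂ).re = ct x - 1 / (x + 0) := by
    unfold ct
    have : (Real.pi * Complex.cot (Real.pi * x) - 1 / x : ℂ) =
        ((Real.pi * Real.cos (Real.pi * x) / Real.sin (Real.pi * x) - 1 / x : ℝ) : ℂ) := by
      rw [Complex.cot]
      push_cast
      ring
    rw [this, Complex.ofReal_re, add_zero]
  rw [e] at h2
  refine h2.congr_fun ?_
  intro n
  have : cotTerm (x : ℂ) n = ((1 / (x + -((n : ℝ) + 1)) + 1 / (x + ((n : ℝ) + 1)) : ℝ) : ℂ) := by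
    unfold cotTerm
    push_cast
    ring
  rw [this, Complex.ofReal_re]

/-- difference of the cotangent series -/
lemma ct_diff (h : ℝ) (M : ℕ) (y : ℝ) (hh : 0 < h) (h0 : 0 < y) (h1 : y + M * h < 1) :
    HasSum (fun n : ℕ => (fwdDiff h)^[M] (fun x => 1 / (x + -((n : ℝ) + 1))) y +
      (fwdDiff h)^[M] (fun x => 1 / (x + ((n : ℝ) + 1))) y)
      ((fwdDiff h)^[M] ct y - (fwdDiff h)^[M] (fun x => 1 / (x + 0)) y) := by
  simp only [fwdDiff_iter_eq_sum_shift]
  rw [← sum_sub_distrib]
  have h2 : ∀ k ∈ range (M + 1), HasSum (fun n : ℕ =>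
      ((-1 : ℤ) ^ (M - k) * (M.choose k : ℤ)) • (1 / (y + k • h + -((n : ℝ) + 1))) +
      ((-1 : ℤ) ^ (M - k) * (M.choose k : ℤ)) • (1 / (y + k • h + ((n : ℝ) + 1))))
      (((-1 : ℤ) ^ (M - k) * (M.choose k : ℤ)) • ct (y + k • h) -
        ((-1 : ℤ) ^ (M - k) * (M.choose k : ℤ)) • (1 / (y + k • h + 0))) := by
    intro k hk
    rw [mem_range] at hk
    have hk' : (k : ℝ) ≤ M := by exact_mod_cast (by omega : k ≤ M)
    have h3 : 0 < y + k • h := by
      rw [nsmul_eq_mul]
      have : 0 ≤ (k : ℝ) * h := by positivity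
      linarith
    have h4 : y + k • h < 1 := by
      rw [nsmul_eq_mul]
      have : (k : ℝ) * h ≤ M * h := mul_le_mul_of_nonneg_right hk' hh.le
      linarith
    have h5 := (ct_hasSum _ h3 h4).mul_left ((((-1 : ℤ) ^ (M - k) * (M.choose k : ℤ) : ℤ)) : ℝ)
    simp only [zsmul_eq_mul]
    rw [← mul_sub]
    refine h5.congr_fun ?_
    intro n
    rw [mul_add]
  have h6 := hasSum_sum h2
  refine h6.congr_fun ?_
  intro n
  rw [sum_add_distrib]

end Pool.Agent.LibTri77
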