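import Pool.Agent.LibTri77.Chain

open Filter Topology Finset

namespace Pool.Agent.LibTri77

/-- the chain of functions -/
noncomputable def V (k : ℕ) : ℝ → ℝ :=
  if k = 0 then (fun x => -ct x) else if k = 1 then U1 else U k

/-- the constants -/
noncomputable def cc (k : ℕ) : ℝ := if k = 0 then 1 else (2 * Real.pi) ^ (k - 1)

lemma cc_succ (k : ℕ) : cc (k + 1) = (if k = 0 then 1 else 2 * Real.pi) * cc k := by
  unfold cc
  rcases Nat.eq_zero_or_pos k with h | h
  · subst h
    simp
  · rw [if_neg (by omega), if_neg (by omega), if_neg (by omega), Nat.add_sub_cancel]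
    obtain ⟨j, rfl⟩ := Nat.exists_eq_add_of_le' h
    rw [Nat.add_sub_cancel, pow_succ]
    ring

lemma cc_pos (k : ℕ) : 0 < cc k := by
  have := Real.pi_pos
  unfold cc
  split_ifs <;> positivity

lemma V_deriv (k : ℕ) (x : ℝ) (h0 : 0 < x) (h1 : x < 1) :
    HasDerivAt (V (k + 1)) ((if k = 0 then 1 else 2 * Real.pi) * V k x) x := by
  rcases Nat.eq_zero_or_pos k with h | h
  · subst h
    have := U1_deriv x h0 h1
    simpa [V] using this
  · rcases Nat.lt_or_ge k 2 with h2 | h2
    · have : k = 1 := by omega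
      subst this
      have := U2_deriv' x h0 h1
      simpa [V] using this
    · have := U_deriv k h2 x
      unfold V
      rw [if_neg (by omega), if_neg (by omega), if_neg (by omega), if_neg (by omega),
        if_neg (by omega)]
      exact this

lemma chain (h : ℝ) (a M K q : ℕ) (hh : 0 < h) (ha : 1 ≤ a) (hM : Odd M)
    (hq : (q : ℝ) * h = 1) (hK : 2 * a + M + K ≤ q) (k : ℕ) : k ≤ K →
    ∀ y : ℝ, (a : ℝ) * h ≤ y → y ≤ ((a : ℝ) + K - k) * h →
    0 < (fwdDiff h)^[M + k] (V k) y ∧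
      (fwdDiff h)^[M + k] (V k) y ≤ cc k * h ^ k * (4 * W h a M) := by
  have hpi := Real.pi_pos
  have ha' : (0 : ℝ) < a := by exact_mod_cast ha
  induction k with
  | zero =>
    intro _ y hy1 hy2
    have := ct_bound h a M K q y hh ha hM hq hy1 (by simpa using hy2) hK
    have e : V 0 = (fun x => -ct x) := by
      unfold V
      rw [if_pos rfl]
    have e2 : cc 0 = 1 := by
      unfold cc
      rw [if_pos rfl]
    rw [e, e2, pow_zero, one_mul, one_mul, add_zero]
    exact this
  | succ k ih =>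
    intro hk y hy1 hy2
    push_cast at hy2
    have hK' : (2 * (a : ℝ) + M + K) * h ≤ 1 := by
      rw [← hq]
      apply mul_le_mul_of_nonneg_right _ hh.le
      exact_mod_cast hK
    have hah : 0 < (a : ℝ) * h := by positivity
    have hy0 : 0 < y := by linarith
    set c : ℝ := (if k = 0 then 1 else 2 * Real.pi) with hc
    have hcpos : 0 < c := by
      rw [hc]
      split_ifs <;> positivity
    have hstep := mvt_step (V (k + 1)) (fun x => c * V k x) h hh (fun x h0 h1 => V_deriv k x h0 h1)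
      (M + k) y (c * (cc k * h ^ k * (4 * W h a M))) hy0 (by
        push_cast
        have h3 : ((k : ℝ) + 1) ≤ K := by exact_mod_cast hk
        have h4 : ((k : ℝ) + 1) * h ≤ K * h := mul_le_mul_of_nonneg_right h3 hh.le
        nlinarith) (by
        intro ξ hξ1 hξ2
        have h5 := ih (by omega) ξ (by linarith) (by nlinarith)
        have e : (fwdDiff h)^[M + k] (fun x => c * V k x) ξ = c * (fwdDiff h)^[M + k] (V k) ξ := by
          simp only [fwdDiff_iter_eq_sum_shift, mul_sum, zsmul_eq_mul]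
          apply sum_congr rfl
          intro i _
          ring
        rw [e]
        exact ⟨mul_pos hcpos h5.1, mul_le_mul_of_nonneg_left h5.2 hcpos.le⟩)
    rw [← add_assoc]
    refine ⟨hstep.1, hstep.2.trans (le_of_eq ?_)⟩
    rw [cc_succ, ← hc, pow_succ]
    ring

/-- the value of `W` for `h = 1/q` -/
lemma W_val (q a M : ℕ) (hq : 0 < q) (ha : 1 ≤ a) :
    W (1 / (q : ℝ)) a M * (a.ascFactorial (M + 1) : ℝ) = q * M.factorial := by
  have hq' : (0 : ℝ) < q := by exact_mod_cast hq
  have ha' : (0 : ℝ) < a := by exact_mod_cast ha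
  unfold W
  rw [Nat.ascFactorial_eq_prod_range]
  push_cast
  rw [prod_mul_distrib, prod_const, card_range]
  have hP : 0 < ∏ i ∈ range (M + 1), ((a : ℝ) + i) := by
    apply prod_pos
    intro i _
    positivity
  rw [pow_succ]
  field_simp

/-- main theorem for weight `K` -/
theorem main (K a M q D : ℕ) (hK2 : 2 ≤ K) (ha : 1 ≤ a) (hM : Odd M) (hK : 2 * a + M + K ≤ q)
    (hD : 1 ≤ D)
    (hint : ∀ j : ℕ, a ≤ j → j ≤ a + M + K → ∃ z : ℤ,
      (D : ℝ) * (U K ((j : ℝ) / q) / Real.pi ^ K) = z) :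
    Real.pi * (q : ℝ) ^ (K - 1) * (a.ascFactorial (M + 1) : ℝ) ≤ 2 ^ (K + 1) * M.factorial * D := by
  have hpi := Real.pi_pos
  have hq : 0 < q := by omega
  have hq' : (0 : ℝ) < q := by exact_mod_cast hq
  have ha' : (0 : ℝ) < a := by exact_mod_cast ha
  have hDpos : (0 : ℝ) < D := by exact_mod_cast hD
  set h : ℝ := 1 / (q : ℝ) with hh
  have hhpos : 0 < h := by rw [hh]; positivity
  have hqh : (q : ℝ) * h = 1 := by rw [hh]; field_simp
  have hch := chain h a M K q hhpos ha hM hqh hK K le_rfl ((a : ℝ) * h) le_rfl (by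
    apply le_of_eq
    ring)
  have hV : V K = U K := by
    unfold V
    rw [if_neg (by omega), if_neg (by omega)]
  have hcc : cc K = (2 * Real.pi) ^ (K - 1) := by
    unfold cc
    rw [if_neg (by omega)]
  rw [hV, hcc] at hch
  set S := (fwdDiff h)^[M + K] (U K) ((a : ℝ) * h) with hS
  have hz : ∃ z : ℤ, (D : ℝ) * (S / Real.pi ^ K) = z := by
    rw [hS, fwdDiff_iter_eq_sum_shift]
    have h1 : ∀ i ∈ range (M + K + 1), ∃ z : ℤ, (D : ℝ) *
        ((((-1 : ℤ) ^ (M + K - i) * ((M + K).choose i : ℤ)) • U K ((a : ℝ) * h + i • h)) /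
          Real.pi ^ K) = z := by
      intro i hi
      rw [mem_range] at hi
      obtain ⟨z, hz⟩ := hint (a + i) (by omega) (by omega)
      refine ⟨((-1 : ℤ) ^ (M + K - i) * ((M + K).choose i : ℤ)) * z, ?_⟩
      have e : (a : ℝ) * h + i • h = ((a + i : ℕ) : ℝ) / q := by
        rw [hh, nsmul_eq_mul]
        push_cast
        field_simp
      rw [e, zsmul_eq_mul, Int.cast_mul (_ * _) z, ← hz]
      ring
    choose! z hz using h1
    refine ⟨∑ i ∈ range (M + K + 1), z i, ?_⟩
    rw [Int.cast_sum, sum_div, mul_sum]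
    exact sum_congr rfl hz
  obtain ⟨z, hz⟩ := hz
  have hpos : 0 < (D : ℝ) * (S / Real.pi ^ K) := mul_pos hDpos (div_pos hch.1 (by positivity))
  have hone : (1 : ℝ) ≤ (D : ℝ) * (S / Real.pi ^ K) := by
    rw [hz] at hpos ⊢
    have : 0 < z := by exact_mod_cast hpos
    exact_mod_cast this
  have h2 : (1 : ℝ) ≤ (D : ℝ) * (((2 * Real.pi) ^ (K - 1) * h ^ K * (4 * W h a M)) / Real.pi ^ K) := by
    refine hone.trans ?_
    apply mul_le_mul_of_nonneg_left _ hDpos.le
    exact div_le_div_of_nonneg_right hch.2 (by positivity)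
  obtain ⟨L, rfl⟩ := Nat.exists_eq_add_of_le' (show 1 ≤ K by omega)
  rw [Nat.add_sub_cancel] at h2 ⊢
  have hW := W_val q a M hq ha
  rw [← hh] at hW
  have hasc : (0 : ℝ) < (a.ascFactorial (M + 1) : ℝ) := by
    have h6 : 0 < a.ascFactorial (M + 1) := by
      obtain ⟨a', rfl⟩ := Nat.exists_eq_add_of_le' ha
      exact Nat.ascFactorial_pos a' (M + 1)
    exact_mod_cast h6
  have h3 := mul_le_mul_of_nonneg_right h2
    (show 0 ≤ Real.pi * (q : ℝ) ^ L * (a.ascFactorial (M + 1) : ℝ) by positivity)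
  rw [one_mul] at h3
  refine h3.trans (le_of_eq ?_)
  have e1 : (D : ℝ) * ((2 * Real.pi) ^ L * h ^ (L + 1) * (4 * W h a M) / Real.pi ^ (L + 1)) *
      (Real.pi * (q : ℝ) ^ L * (a.ascFactorial (M + 1) : ℝ)) =
      (D : ℝ) * ((2 * Real.pi) ^ L * h ^ (L + 1) * 4 / Real.pi ^ (L + 1)) *
      (Real.pi * (q : ℝ) ^ L) * (W h a M * (a.ascFactorial (M + 1) : ℝ)) := by ring
  rw [e1, hW, hh, mul_pow, div_pow, one_pow]
  rw [pow_succ, pow_succ, pow_succ, pow_succ]
  field_simp
  ring

end Pool.Agent.LibTri77
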